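import Pool.Graph.R_seed8.Helper983.UNS.PartA
import Pool.Graph.R_seed8.Helper983.UNS.Empty
import Pool.Graph.R_seed8.Helper983.UNS.Renorm

set_option autoImplicit false

namespace Pool.Agent.Q35.UNS
open Finset Filter Topology Pool.Agent.Helper983.UNS

variable {X : Type} [NormedAddCommGroup X] [NormedSpace ℝ X]

theorem star {m : ℕ} (hm : 2 ≤ m) {c' ν : ℝ} (hν : 0 < ν)
    (hcent : ∀ (z : Fin m → X) (ρ : ℝ), 0 < ρ → (∀ i j, ‖z i - z j‖ ≤ ρ) →
      ∃ w : Fin m → ℝ, (∀ i, 0 ≤ w i) ∧ ∑ i, w i = 1 ∧ ∀ i, ‖z i - ∑ j, w j • z j‖ ≤ c' * ρ)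
    (hlt : c' < 1 - 1 / m - 5 * ν) (z : Fin m → X) :
    ∑ i, ‖∑ j, (z i - z j)‖ ^ 2
      ≤ (1 - ν ^ 2 / m ^ 3) * (m - 1) * ∑ i, ∑ j, ‖z i - z j‖ ^ 2 := by
  classical
  by_contra hcon
  push Not at hcon
  have hm0 : (0 : ℝ) < m := by positivity
  have hm2 : (2 : ℝ) ≤ m := by exact_mod_cast hm
  set M : ℝ := (m : ℝ) - 1 with hM
  have hM1 : 1 ≤ M := by linarith
  have : Nonempty (Fin m) := ⟨⟨0, by omega⟩⟩
  set D : Fin m → Fin m → ℝ := fun i j => ‖z i - z j‖ with hD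
  have hD0 : ∀ i j, 0 ≤ D i j := fun i j => norm_nonneg _
  have hDii : ∀ i, D i i = 0 := fun i => by simp [hD]
  have hDsymm : ∀ i j, D i j = D j i := fun i j => norm_sub_rev _ _
  set s : Fin m → ℝ := fun i => ‖∑ j, (z i - z j)‖ with hs
  set Sg := ∑ i, ∑ j, D i j ^ 2 with hSg
  have hs_le : ∀ i, s i ≤ ∑ j, D i j := fun i => norm_sum_le _ _
  have hs0 : ∀ i, 0 ≤ s i := fun i => norm_nonneg _
  -- Cauchy-Schwarz with mean
  set μ : Fin m → ℝ := fun i => (∑ j, D i j) / M with hμ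
  have hvar : ∀ i, ∑ j ∈ Finset.univ.erase i, (D i j - μ i) ^ 2
      = ∑ j, D i j ^ 2 - (∑ j, D i j) ^ 2 / M := by
    intro i
    have e1 : ∑ j ∈ Finset.univ.erase i, D i j ^ 2 = ∑ j, D i j ^ 2 := by
      rw [← Finset.sum_erase_add _ _ (Finset.mem_univ i), hDii]
      ring
    have e2 : ∑ j ∈ Finset.univ.erase i, D i j = ∑ j, D i j := by
      rw [← Finset.sum_erase_add _ _ (Finset.mem_univ i), hDii]
      ring
    have e3 : ((Finset.univ.erase i).card : ℝ) = M := by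
      rw [Finset.card_erase_of_mem (Finset.mem_univ i), Finset.card_univ, Fintype.card_fin,
        Nat.cast_sub (by omega)]
      simp [hM]
    have e4 : ∀ j, (D i j - μ i) ^ 2 = D i j ^ 2 - 2 * μ i * D i j + μ i ^ 2 := fun j => by ring
    rw [Finset.sum_congr rfl fun j _ => e4 j, Finset.sum_add_distrib, Finset.sum_sub_distrib,
      ← Finset.mul_sum, Finset.sum_const, nsmul_eq_mul, e1, e2, e3]
    simp only [hμ]
    field_simp
    ring
  have hgap0 : ∀ i, 0 ≤ M * ∑ j, D i j ^ 2 - s i ^ 2 := by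
    intro i
    have h1 : 0 ≤ ∑ j, D i j ^ 2 - (∑ j, D i j) ^ 2 / M := by
      rw [← hvar i]
      exact Finset.sum_nonneg fun _ _ => sq_nonneg _
    have h2 : s i ^ 2 ≤ (∑ j, D i j) ^ 2 := pow_le_pow_left₀ (hs0 i) (hs_le i) 2
    have h3 : 0 ≤ M * (∑ j, D i j ^ 2 - (∑ j, D i j) ^ 2 / M) := by positivity
    have h4 : M * ((∑ j, D i j) ^ 2 / M) = (∑ j, D i j) ^ 2 := by field_simp
    rw [mul_sub, h4] at h3
    linarith
  have hS0 : 0 ≤ Sg := Finset.sum_nonneg fun _ _ => Finset.sum_nonneg fun _ _ => sq_nonneg _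
  have hgap : ∀ i, M * ∑ j, D i j ^ 2 - s i ^ 2 ≤ ν ^ 2 / m ^ 3 * M * Sg := by
    intro i
    have h1 : M * ∑ j, D i j ^ 2 - s i ^ 2 ≤ ∑ i, (M * ∑ j, D i j ^ 2 - s i ^ 2) :=
      Finset.single_le_sum (f := fun i => M * ∑ j, D i j ^ 2 - s i ^ 2)
        (fun i _ => hgap0 i) (Finset.mem_univ i)
    rw [Finset.sum_sub_distrib, ← Finset.mul_sum] at h1
    have h2 : (1 - ν ^ 2 / m ^ 3) * M * Sg < ∑ i, s i ^ 2 := hcon
    have h3 : (1 - ν ^ 2 / m ^ 3) * M * Sg = M * Sg - ν ^ 2 / m ^ 3 * M * Sg := by ring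
    linarith
  obtain ⟨⟨a, b⟩, -, hab⟩ := Finset.exists_max_image (Finset.univ : Finset (Fin m × Fin m))
    (fun p => D p.1 p.2) Finset.univ_nonempty
  set ρ := D a b with hρ
  have hρle : ∀ i j, D i j ≤ ρ := fun i j => hab (i, j) (Finset.mem_univ _)
  have hρ0 : 0 < ρ := by
    rcases (hD0 a b).eq_or_lt with h0 | h0
    · exfalso
      have hz : ∀ i j, D i j = 0 := fun i j =>
        le_antisymm ((hρle i j).trans (le_of_eq (hρ.trans h0.symm))) (hD0 i j)
      have h1 : ∑ i, s i ^ 2 = 0 := by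
        refine Finset.sum_eq_zero fun i _ => ?_
        have : s i ≤ 0 := (hs_le i).trans (by simp [hz])
        have : s i = 0 := le_antisymm this (hs0 i)
        rw [this]; norm_num
      have h2 : Sg = 0 := by simp [hSg, hz]
      have h3 : (1 - ν ^ 2 / m ^ 3) * M * Sg < ∑ i, s i ^ 2 := hcon
      rw [h1, h2] at h3
      simp at h3
    · exact h0
  have hSle : Sg ≤ m ^ 2 * ρ ^ 2 := by
    calc Sg ≤ ∑ _i : Fin m, ∑ _j : Fin m, ρ ^ 2 :=
          Finset.sum_le_sum fun i _ => Finset.sum_le_sum fun j _ =>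
            pow_le_pow_left₀ (hD0 i j) (hρle i j) 2
      _ = m ^ 2 * ρ ^ 2 := by
          simp
          ring
  have hgap2 : ∀ i, M * ∑ j, D i j ^ 2 - s i ^ 2 ≤ (ν * ρ) ^ 2 := by
    intro i
    refine (hgap i).trans ?_
    have h1 : ν ^ 2 / m ^ 3 * M * Sg ≤ ν ^ 2 / m ^ 3 * m * (m ^ 2 * ρ ^ 2) := by
      have h2 : ν ^ 2 / m ^ 3 * M ≤ ν ^ 2 / m ^ 3 * m :=
        mul_le_mul_of_nonneg_left (by linarith) (by positivity)
      exact mul_le_mul h2 hSle hS0 (by positivity)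
    refine h1.trans (le_of_eq ?_)
    field_simp
  set g := ν * ρ with hg
  have hg0 : 0 < g := mul_pos hν hρ0
  have hdev : ∀ i j, j ≠ i → |D i j - μ i| ≤ g := by
    intro i j hij
    apply abs_le_of_sq_le_sq _ hg0.le
    have h1 : (D i j - μ i) ^ 2 ≤ ∑ j ∈ Finset.univ.erase i, (D i j - μ i) ^ 2 :=
      Finset.single_le_sum (f := fun j => (D i j - μ i) ^ 2) (fun _ _ => sq_nonneg _)
        (Finset.mem_erase.2 ⟨hij, Finset.mem_univ _⟩)
    rw [hvar i] at h1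
    have h2 := hgap2 i
    have h3 : s i ^ 2 ≤ (∑ j, D i j) ^ 2 := pow_le_pow_left₀ (hs0 i) (hs_le i) 2
    have h4 : 0 ≤ ∑ j, D i j ^ 2 - (∑ j, D i j) ^ 2 / M := by
      rw [← hvar i]
      exact Finset.sum_nonneg fun _ _ => sq_nonneg _
    have h5 : ∑ j, D i j ^ 2 - (∑ j, D i j) ^ 2 / M
        ≤ M * (∑ j, D i j ^ 2 - (∑ j, D i j) ^ 2 / M) := by nlinarith
    have h6 : M * ((∑ j, D i j) ^ 2 / M) = (∑ j, D i j) ^ 2 := by field_simp
    rw [mul_sub, h6] at h5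
    linarith
  have hsg : ∀ i, ∑ j, D i j - s i ≤ g := by
    intro i
    have h1 := hgap2 i
    have h4 : 0 ≤ ∑ j, D i j ^ 2 - (∑ j, D i j) ^ 2 / M := by
      rw [← hvar i]
      exact Finset.sum_nonneg fun _ _ => sq_nonneg _
    have h5 : 0 ≤ M * (∑ j, D i j ^ 2 - (∑ j, D i j) ^ 2 / M) := by positivity
    have h6 : M * ((∑ j, D i j) ^ 2 / M) = (∑ j, D i j) ^ 2 := by field_simp
    rw [mul_sub, h6] at h5
    have h7 : (∑ j, D i j - s i) ^ 2 ≤ g ^ 2 := by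
      have h8 := hs_le i
      have h9 := hs0 i
      nlinarith
    exact (abs_le_of_sq_le_sq' h7 hg0.le).2
  have hμ2 : ∀ i j, μ i ≤ μ j + 2 * g := by
    intro i j
    by_cases hij : i = j
    · subst hij; linarith
    · have h1 := abs_le.1 (hdev i j (Ne.symm hij))
      have h2 := abs_le.1 (hdev j i hij)
      rw [hDsymm j i] at h2
      linarith [h1.1, h2.2]
  have hab' : b ≠ a := by
    intro h
    rw [hρ, h, hDii] at hρ0
    exact lt_irrefl _ hρ0
  have hDlow : ∀ i j, j ≠ i → ρ - 4 * g ≤ D i j := by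
    intro i j hij
    have h1 := abs_le.1 (hdev i j hij)
    have h2 := abs_le.1 (hdev a b hab')
    have h3 := hμ2 a i
    linarith [h1.1, h2.2]
  obtain ⟨w, hw0, hw1, hw⟩ := hcent z ρ hρ0 hρle
  obtain ⟨i, hi⟩ : ∃ i, w i ≤ 1 / m := by
    by_contra hno
    push Not at hno
    have h1 : ∑ _i : Fin m, (1 : ℝ) / m < ∑ i, w i :=
      Finset.sum_lt_sum_of_nonempty Finset.univ_nonempty fun i _ => hno i
    rw [hw1] at h1
    simp at h1
    rw [mul_inv_cancel₀ hm0.ne'] at h1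
    exact lt_irrefl _ h1
  have hkey : s i ≤ c' * ρ + ∑ j, (1 - w j) * D i j := by
    have h1 : ∑ j, (z i - z j) = (z i - ∑ j, w j • z j) + ∑ j, (1 - w j) • (z i - z j) := by
      have h2 : z i - ∑ j, w j • z j = ∑ j, w j • (z i - z j) := by
        simp only [smul_sub, Finset.sum_sub_distrib, ← Finset.sum_smul, hw1, one_smul]
      rw [h2, ← Finset.sum_add_distrib]
      refine Finset.sum_congr rfl fun j _ => ?_
      rw [← add_smul]
      simp
    have h3 : w i ≤ 1 := by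
      rw [← hw1]
      exact Finset.single_le_sum (fun j _ => hw0 j) (Finset.mem_univ i)
    have hwle : ∀ j, w j ≤ 1 := by
      intro j
      rw [← hw1]
      exact Finset.single_le_sum (fun j _ => hw0 j) (Finset.mem_univ j)
    calc s i = ‖(z i - ∑ j, w j • z j) + ∑ j, (1 - w j) • (z i - z j)‖ := by rw [← h1]
      _ ≤ ‖z i - ∑ j, w j • z j‖ + ‖∑ j, (1 - w j) • (z i - z j)‖ := norm_add_le _ _
      _ ≤ c' * ρ + ∑ j, (1 - w j) * D i j := by
          refine add_le_add (hw i) ((norm_sum_le _ _).trans (le_of_eq ?_))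
          refine Finset.sum_congr rfl fun j _ => ?_
          rw [norm_smul, Real.norm_of_nonneg (by linarith [hwle j])]
  have h1 : ∑ j, (1 - w j) * D i j = ∑ j, D i j - ∑ j, w j * D i j := by
    rw [← Finset.sum_sub_distrib]
    exact Finset.sum_congr rfl fun j _ => by ring
  have h2 : (1 - w i) * (ρ - 4 * g) ≤ ∑ j, w j * D i j := by
    have e1 : ∑ j ∈ Finset.univ.erase i, w j * D i j = ∑ j, w j * D i j := by
      rw [← Finset.sum_erase_add _ _ (Finset.mem_univ i), hDii]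
      ring
    have e2 : ∑ j ∈ Finset.univ.erase i, w j = 1 - w i := by
      have := Finset.sum_erase_add Finset.univ w (Finset.mem_univ i)
      rw [hw1] at this
      linarith
    rw [← e1, ← e2, Finset.sum_mul]
    refine Finset.sum_le_sum fun j hj => mul_le_mul_of_nonneg_left
      (hDlow i j (Finset.ne_of_mem_erase hj)) (hw0 j)
  have h3 := hsg i
  have h4 := hw0 i
  have h5 : (1 - w i) * (ρ - 4 * g) = (1 - w i) * ρ - 4 * g + 4 * (w i * g) := by ring
  have h6 : (1 - 1 / m) * ρ ≤ (1 - w i) * ρ := mul_le_mul_of_nonneg_right (by linarith) hρ0.le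
  have h7 : 0 ≤ w i * g := mul_nonneg h4 hg0.le
  have h8 : c' * ρ < (1 - 1 / m - 5 * ν) * ρ := mul_lt_mul_of_pos_right hlt hρ0
  have h9 : (1 - 1 / (m : ℝ) - 5 * ν) * ρ = (1 - 1 / m) * ρ - 5 * g := by rw [hg]; ring
  linarith


end Pool.Agent.Q35.UNS
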